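import Pool.Agent.H75Robin.Geo

set_option autoImplicit false

/-!
# Robin problem on Lipschitz epigraphs: non-uniqueness in every dimension and for every `α`

The planar example is the one of the library, with the surface measure of the graph written as
`sqrt (1 + |∇φ|²) dx'`.
-/

namespace Pool.Agent.Results.MP_1dc5fb_an.EveryAlpha

open MeasureTheory Filter Topology Set Metric

/-- The points `x' = (x₀, z)` of `ℝ^{k+1}`. -/
abbrev Base (k : ℕ) : Type := ℝ × (Fin k → ℝ)

/-- The points `x = (x', y)` of `ℝ^{k+2}`; the last coordinate is the vertical one. -/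
abbrev Pt (k : ℕ) : Type := Base k × ℝ

/-- `∇u · ∇v`, the sum over the `k + 2` coordinates of `∂u ∂v`. -/
noncomputable def gradDot {k : ℕ} (u v : Pt k → ℝ) (p : Pt k) : ℝ :=
  fderiv ℝ u p ((1, 0), 0) * fderiv ℝ v p ((1, 0), 0) +
    (∑ i : Fin k, fderiv ℝ u p ((0, Pi.single i 1), 0) * fderiv ℝ v p ((0, Pi.single i 1), 0)) +
    fderiv ℝ u p ((0, 0), 1) * fderiv ℝ v p ((0, 0), 1)

/-- The density `sqrt (1 + |∇φ|²)` of the surface measure of the graph of `φ`. -/
noncomputable def density {k : ℕ} (φ : Base k → ℝ) (x : Base k) : ℝ :=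
  Real.sqrt (1 + (fderiv ℝ φ x (1, 0) ^ 2 + ∑ i : Fin k, fderiv ℝ φ x (0, Pi.single i 1) ^ 2))

/-- The epigraph `{(x', y) : φ(x') < y}`. -/
def epigraph {k : ℕ} (φ : Base k → ℝ) : Set (Pt k) := {p | φ p.1 < p.2}

/-- `u` is a positive bounded weak solution of `-Δu = f(u)` in the epigraph of `φ` with
`u + α ∂_ν u = 0` on its boundary. -/
structure IsSolution {k : ℕ} (f : ℝ → ℝ) (α : ℝ) (φ : Base k → ℝ) (u : Pt k → ℝ) : Prop where
  smooth : ContDiffOn ℝ 1 u (epigraph φ)
  cont : ContinuousOn u (closure (epigraph φ))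
  bounds : ∀ p ∈ epigraph φ, 0 < u p ∧ u p ≤ 1
  energy : ∀ R : ℝ, IntegrableOn (fun p => gradDot u u p) (epigraph φ ∩ Metric.ball 0 R)
  weak : ∀ ψ : Pt k → ℝ, ContDiff ℝ 1 ψ → HasCompactSupport ψ →
    (∫ p in epigraph φ, gradDot u ψ p) +
        (1 / α) * (∫ x, u (x, φ x) * ψ (x, φ x) * density φ x) =
      ∫ p in epigraph φ, f (u p) * ψ p

/-- Positive reactions. -/
def PositiveReaction (f : ℝ → ℝ) : Prop :=
  ContDiff ℝ 1 f ∧
    (∃ C γ : NNReal, 0 < γ ∧ γ < 1 ∧ HolderOnWith C γ (deriv f) (Set.Icc (0 : ℝ) 1)) ∧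
    f 0 = 0 ∧ f 1 = 0 ∧ (∀ s ∈ Set.Ioo (0 : ℝ) 1, 0 < f s) ∧ 0 < deriv f 0 ∧ deriv f 1 < 0

section Aux

variable {k : ℕ}

/-- the rearrangement of the coordinates -/
def mm : ((ℝ × ℝ) × (Fin k → ℝ)) ≃ᵐ Pt k :=
  MeasurableEquiv.prodAssoc.trans
    ((MeasurableEquiv.prodCongr (MeasurableEquiv.refl ℝ) MeasurableEquiv.prodComm).trans
      MeasurableEquiv.prodAssoc.symm)

theorem mm_apply (q : (ℝ × ℝ) × (Fin k → ℝ)) : mm q = ((q.1.1, q.2), q.1.2) := rfl

theorem mm_mp : MeasurePreserving (mm (k := k)) volume volume := by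
  have h1 : MeasurePreserving (MeasurableEquiv.prodAssoc : ((ℝ × ℝ) × (Fin k → ℝ)) ≃ᵐ _)
      volume volume := volume_preserving_prodAssoc
  have h2 : MeasurePreserving (MeasurableEquiv.prodAssoc : ((ℝ × (Fin k → ℝ)) × ℝ) ≃ᵐ _)
      volume volume := volume_preserving_prodAssoc
  have h3 : MeasurePreserving (Prod.map id Prod.swap : ℝ × (ℝ × (Fin k → ℝ)) →
      ℝ × ((Fin k → ℝ) × ℝ)) volume volume :=
    (MeasurePreserving.id volume).prod Measure.measurePreserving_swap
  exact (h2.symm _).comp (h3.comp h1)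

/-- integrability on the product -/
theorem gen {A : Type} [NormedAddCommGroup A] [MeasurableSpace A] [BorelSpace A] {μ : Measure A}
    [SFinite μ] {a : A → ℝ} {R C : ℝ} (ha : IntegrableOn a (closedBall 0 R) μ)
    {b : A × (Fin k → ℝ) → ℝ} (hb : AEStronglyMeasurable b (μ.prod volume))
    (hC : ∀ q, |b q| ≤ C) (h0 : ∀ q, b q ≠ 0 → ‖q.1‖ ≤ R ∧ ‖q.2‖ ≤ R) :
    Integrable (fun q : A × (Fin k → ℝ) => a q.1 * b q) (μ.prod volume) := by
  have h1 : Integrable ((closedBall (0 : A) R).indicator a) μ :=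
    (integrable_indicator_iff isClosed_closedBall.measurableSet).2 ha
  have h2 : Integrable ((closedBall (0 : Fin k → ℝ) R).indicator fun _ => (1 : ℝ)) volume :=
    (integrable_indicator_iff isClosed_closedBall.measurableSet).2
      (integrableOn_const (isCompact_closedBall _ _).measure_lt_top.ne)
  have h3 := (h1.mul_prod h2).bdd_mul hb (c := C) (Eventually.of_forall fun q => by
    rw [Real.norm_eq_abs]; exact hC q)
  refine h3.congr (Eventually.of_forall fun q => ?_)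
  show b q * ((closedBall (0 : A) R).indicator a q.1 *
    (closedBall (0 : Fin k → ℝ) R).indicator (fun _ => (1 : ℝ)) q.2) = a q.1 * b q
  by_cases hq : b q = 0
  · rw [hq]; ring
  · obtain ⟨h4, h5⟩ := h0 q hq
    rw [indicator_of_mem (mem_closedBall_zero_iff.2 h4), indicator_of_mem
      (mem_closedBall_zero_iff.2 h5)]
    ring

open Pool.Agent.H.MP_1dc5fb_an Pool.Agent.H75Robin

/-- the projection to the plane -/
def pr : Pt k →L[ℝ] ℝ × ℝ :=
  ((ContinuousLinearMap.fst ℝ ℝ (Fin k → ℝ)).comp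
    (ContinuousLinearMap.fst ℝ (ℝ × (Fin k → ℝ)) ℝ)).prod
    (ContinuousLinearMap.snd ℝ (ℝ × (Fin k → ℝ)) ℝ)

theorem pr_apply (p : Pt k) : pr p = (p.1.1, p.2) := rfl

/-- the embedding of the plane -/
def em : ℝ × ℝ →L[ℝ] Pt k :=
  ((ContinuousLinearMap.fst ℝ ℝ ℝ).prod (0 : ℝ × ℝ →L[ℝ] (Fin k → ℝ))).prod
    (ContinuousLinearMap.snd ℝ ℝ ℝ)

/-- the slices -/
def sl (z : Fin k → ℝ) (q : ℝ × ℝ) : Pt k := em q + ((0, z), 0)

theorem sl_apply (z : Fin k → ℝ) (q : ℝ × ℝ) : sl z q = ((q.1, z), q.2) := by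
  simp [sl, em]

theorem mm_eq (q : (ℝ × ℝ) × (Fin k → ℝ)) : mm q = sl q.2 q.1 := by
  rw [sl_apply, mm_apply]

theorem sl_hasFDerivAt (z : Fin k → ℝ) (q : ℝ × ℝ) : HasFDerivAt (sl z) em q :=
  em.hasFDerivAt.add_const _

theorem epi_pre (G : Geo) :
    (mm (k := k)) ⁻¹' (epigraph fun x : Base k => G.φ x.1) = G.Ω ×ˢ (univ : Set (Fin k → ℝ)) := by
  ext q
  simp only [mem_preimage, mm_apply, epigraph, Geo.Ω, mem_prod, mem_univ, and_true]
  exact Iff.rfl

/-- the change of variables for integrals over the epigraph -/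
theorem int_epi (G : Geo) (F : Pt k → ℝ) :
    ∫ p in epigraph (fun x : Base k => G.φ x.1), F p =
      ∫ q, F (mm q) ∂((volume.restrict G.Ω).prod (volume : Measure (Fin k → ℝ))) := by
  rw [← mm_mp.setIntegral_preimage_emb mm.measurableEmbedding, epi_pre]
  congr 1
  rw [Measure.volume_eq_prod, ← Measure.prod_restrict, Measure.restrict_univ]

theorem grad_lift {G : Geo} {U : ℝ × ℝ → ℝ} (h1 : ContDiffOn ℝ 1 U G.Ω) {p : Pt k}
    (hp : pr p ∈ G.Ω) (v : Pt k) :
    fderiv ℝ (fun p : Pt k => 1 - U (p.1.1, p.2)) p v = - fderiv ℝ U (pr p) (pr v) := by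
  have hd : DifferentiableAt ℝ U (pr p) :=
    (h1.differentiableOn one_ne_zero).differentiableAt (G.isOpen.mem_nhds hp)
  have h : HasFDerivAt (fun p : Pt k => 1 - U (pr p)) (-((fderiv ℝ U (pr p)).comp pr)) p :=
    (hd.hasFDerivAt.comp p pr.hasFDerivAt).const_sub 1
  have h' : fderiv ℝ (fun p : Pt k => 1 - U (p.1.1, p.2)) p = _ := h.fderiv
  rw [h']
  rfl

theorem gradDot_lift {G : Geo} {U : ℝ × ℝ → ℝ} (h1 : ContDiffOn ℝ 1 U G.Ω) {p : Pt k}
    (hp : pr p ∈ G.Ω) (ψ : Pt k → ℝ) :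
    gradDot (fun p : Pt k => 1 - U (p.1.1, p.2)) ψ p =
      -(dx U (pr p) * fderiv ℝ ψ p ((1, 0), 0) + dy U (pr p) * fderiv ℝ ψ p ((0, 0), 1)) := by
  unfold gradDot
  simp only [grad_lift h1 hp]
  have e : ∀ i : Fin k, (pr (((0 : ℝ), (Pi.single i (1 : ℝ) : Fin k → ℝ)), (0 : ℝ)) : ℝ × ℝ) = 0 :=
    fun i => rfl
  simp only [e, map_zero, neg_zero, zero_mul, Finset.sum_const_zero]
  have e2 : (pr (k := k) (((1 : ℝ), (0 : Fin k → ℝ)), (0 : ℝ)) : ℝ × ℝ) = (1, 0) := rfl
  have e3 : (pr (k := k) (((0 : ℝ), (0 : Fin k → ℝ)), (1 : ℝ)) : ℝ × ℝ) = (0, 1) := rfl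
  rw [e2, e3, dx, dy]
  ring

theorem ddx {G : Geo} {U : ℝ × ℝ → ℝ} (h1 : ContDiffOn ℝ 1 U G.Ω) (v : ℝ × ℝ) :
    ContinuousOn (fun p => fderiv ℝ U p v) G.Ω :=
  (h1.continuousOn_fderiv_of_isOpen G.isOpen le_rfl).clm_apply continuousOn_const

theorem int_grad {G : Geo} {l : ℝ} {U : ℝ × ℝ → ℝ} (h : G.Sol l U) (R : ℝ) :
    IntegrableOn (dx U) (closedBall 0 R) (volume.restrict G.Ω) ∧
      IntegrableOn (dy U) (closedBall 0 R) (volume.restrict G.Ω) := by
  obtain ⟨h1, h2, h3, h4, h5⟩ := h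
  have hb : Bornology.IsBounded (G.Ω ∩ closedBall (0 : ℝ × ℝ) R) :=
    isBounded_closedBall.subset inter_subset_right
  have hm : MeasurableSet (G.Ω ∩ closedBall (0 : ℝ × ℝ) R) :=
    G.isOpen.measurableSet.inter isClosed_closedBall.measurableSet
  have e : (volume.restrict G.Ω).restrict (closedBall (0 : ℝ × ℝ) R) =
      volume.restrict (G.Ω ∩ closedBall 0 R) := by
    rw [Measure.restrict_restrict isClosed_closedBall.measurableSet, inter_comm]
  have hfin : volume (G.Ω ∩ closedBall (0 : ℝ × ℝ) R) ≠ ⊤ := hb.measure_lt_top.ne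
  have key : ∀ g : ℝ × ℝ → ℝ, ContinuousOn g G.Ω →
      IntegrableOn (fun p => g p ^ 2) (G.Ω ∩ closedBall 0 R) →
      IntegrableOn g (closedBall 0 R) (volume.restrict G.Ω) := by
    intro g hg hg2
    rw [IntegrableOn, e]
    refine Integrable.mono' ((integrableOn_const hfin (C := (1 : ℝ))).add hg2)
      ((hg.mono inter_subset_left).aestronglyMeasurable hm) (Eventually.of_forall fun p => ?_)
    rw [Real.norm_eq_abs]
    show |g p| ≤ 1 + g p ^ 2
    rw [abs_le]
    constructor <;> nlinarith [sq_nonneg (g p + 1), sq_nonneg (g p - 1)]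
  obtain ⟨a1, a2⟩ := h4 _ inter_subset_left hb
  exact ⟨key _ (ddx h1 _) a1, key _ (ddx h1 _) a2⟩

theorem int_f {G : Geo} {l : ℝ} (l0 : 0 < l) {U : ℝ × ℝ → ℝ} (h : G.Sol l U) (R : ℝ) :
    IntegrableOn (fun p => ff l (1 - U p)) (closedBall 0 R) (volume.restrict G.Ω) := by
  obtain ⟨h1, h2, h3, h4, h5⟩ := h
  have hb : Bornology.IsBounded (G.Ω ∩ closedBall (0 : ℝ × ℝ) R) :=
    isBounded_closedBall.subset inter_subset_right
  have hm : MeasurableSet (G.Ω ∩ closedBall (0 : ℝ × ℝ) R) :=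
    G.isOpen.measurableSet.inter isClosed_closedBall.measurableSet
  have e : (volume.restrict G.Ω).restrict (closedBall (0 : ℝ × ℝ) R) =
      volume.restrict (G.Ω ∩ closedBall 0 R) := by
    rw [Measure.restrict_restrict isClosed_closedBall.measurableSet, inter_comm]
  have hfin : volume (G.Ω ∩ closedBall (0 : ℝ × ℝ) R) ≠ ⊤ := hb.measure_lt_top.ne
  have hc : Continuous (ff l) := (ff_p l0).1.continuous
  obtain ⟨C, hC⟩ := (isCompact_Icc (a := (0 : ℝ)) (b := 1)).exists_bound_of_continuousOn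
    hc.continuousOn
  rw [IntegrableOn, e]
  refine Integrable.mono' (integrableOn_const hfin (C := C))
    ((hc.comp_continuousOn (continuousOn_const.sub
      (h1.continuousOn.mono inter_subset_left))).aestronglyMeasurable hm) ?_
  filter_upwards [ae_restrict_mem hm] with p hp
  have := h3 p hp.1
  exact hC _ ⟨by linarith [this.2], by linarith [this.1]⟩

theorem int_bd {G : Geo} {l : ℝ} {U : ℝ × ℝ → ℝ} (h : G.Sol l U) (R : ℝ) :
    IntegrableOn (fun x => (1 - U (G.γ x)) * den G.φ x) (closedBall 0 R) volume := by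
  obtain ⟨h1, h2, h3, h4, h5⟩ := h
  have hc : Continuous fun x => 1 - U (G.γ x) :=
    continuous_const.sub (h2.comp_continuous G.cγ fun x => Geo.mem_cl.2 le_rfl)
  have hi : IntegrableOn (fun x => 1 - U (G.γ x)) (closedBall 0 R) volume :=
    hc.continuousOn.integrableOn_compact (isCompact_closedBall _ _)
  refine hi.mul_bdd (c := G.L + 1) (den_meas _).aestronglyMeasurable
    (Eventually.of_forall fun x => ?_)
  rw [Real.norm_of_nonneg (zero_le_one.trans (den_one _ _))]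
  exact den_le G.hL G.lip x

theorem cont_mm : Continuous (fun q : (ℝ × ℝ) × (Fin k → ℝ) => (mm q : Pt k)) := by
  show Continuous fun q : (ℝ × ℝ) × (Fin k → ℝ) => (((q.1.1, q.2), q.1.2) : Pt k)
  fun_prop

theorem norm_mm {q : (ℝ × ℝ) × (Fin k → ℝ)} {R : ℝ} (h : ‖(mm q : Pt k)‖ ≤ R) :
    ‖q.1‖ ≤ R ∧ ‖q.2‖ ≤ R := by
  rw [mm_apply, Prod.norm_def, Prod.norm_def] at h
  rw [Prod.norm_def]
  simp only [max_le_iff] at h ⊢
  exact ⟨⟨h.1.1, h.2⟩, h.1.2⟩

/-- integrability over the epigraph -/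
theorem int_mm {G : Geo} {a : ℝ × ℝ → ℝ} {R : ℝ}
    (ha : IntegrableOn a (closedBall 0 R) (volume.restrict G.Ω)) {b : Pt k → ℝ}
    (hb : Continuous b) (hb' : HasCompactSupport b) (h0 : ∀ p, b p ≠ 0 → ‖p‖ ≤ R) :
    Integrable (fun q : (ℝ × ℝ) × (Fin k → ℝ) => a q.1 * b (mm q))
      ((volume.restrict G.Ω).prod volume) := by
  obtain ⟨C, hC⟩ := hb.bounded_above_of_compact_support hb'
  exact gen ha (b := fun q => b (mm q)) (hb.comp cont_mm).aestronglyMeasurable
    (fun q => hC _) fun q hq => norm_mm (h0 _ hq)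

theorem density_ae (G : Geo) : ∀ᵐ x : Base k,
    density (fun x : Base k => G.φ x.1) x = den G.φ x.1 := by
  have lip : LipschitzWith ⟨G.L, G.hL⟩ G.φ := LipschitzWith.of_dist_le_mul fun x y => G.lip x y
  have hd := lip.ae_differentiableAt_real
  have h2 : ∀ᵐ x : Base k, DifferentiableAt ℝ G.φ x.1 := Measure.quasiMeasurePreserving_fst.ae hd
  filter_upwards [h2] with x hx
  have h3 : HasFDerivAt (fun x : Base k => G.φ x.1)
      ((fderiv ℝ G.φ x.1).comp (ContinuousLinearMap.fst ℝ ℝ (Fin k → ℝ))) x :=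
    hx.hasFDerivAt.comp x hasFDerivAt_fst
  rw [density, h3.fderiv, den]
  congr 1
  have e1 : ((fderiv ℝ G.φ x.1).comp (ContinuousLinearMap.fst ℝ ℝ (Fin k → ℝ))) (1, 0) =
    deriv G.φ x.1 := rfl
  have e2 : ∀ i : Fin k, ((fderiv ℝ G.φ x.1).comp (ContinuousLinearMap.fst ℝ ℝ (Fin k → ℝ)))
      (0, Pi.single i 1) = 0 := fun i => by
    show (fderiv ℝ G.φ x.1) 0 = 0
    exact map_zero _
  simp only [e1, e2]
  simp

theorem weak_lift {G : Geo} {β l : ℝ} (β0 : 0 < β) (l0 : 0 < l)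
    (hσ : G.σ = ENNReal.ofReal β • sm G.φ) {U : ℝ × ℝ → ℝ} (h : G.Sol l U)
    (ψ : Pt k → ℝ) (c : ContDiff ℝ 1 ψ) (hc : HasCompactSupport ψ) :
    (∫ p in epigraph (fun x : Base k => G.φ x.1),
        gradDot (fun p : Pt k => 1 - U (p.1.1, p.2)) ψ p) +
      (1 / β⁻¹) * (∫ x : Base k, (1 - U (x.1, G.φ x.1)) * ψ (x, G.φ x.1) *
        density (fun x : Base k => G.φ x.1) x) =
      ∫ p in epigraph (fun x : Base k => G.φ x.1), ff l (1 - U (p.1.1, p.2)) * ψ p := by
  have h' := h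
  obtain ⟨h1, h2, h3, h4, h5⟩ := h'
  obtain ⟨R, hR⟩ := hc.isCompact.isBounded.subset_closedBall (0 : Pt k)
  have z0 : ∀ p, ψ p ≠ 0 → ‖p‖ ≤ R := fun p hp =>
    mem_closedBall_zero_iff.1 (hR (subset_tsupport _ hp))
  have z1 : ∀ v : Pt k, ∀ p, fderiv ℝ ψ p v ≠ 0 → ‖p‖ ≤ R := fun v p hp =>
    mem_closedBall_zero_iff.1 (hR (support_fderiv_subset ℝ (fun e => hp (by rw [e]; rfl))))
  have cd : ∀ v : Pt k, Continuous fun p => fderiv ℝ ψ p v := fun v =>
    (c.continuous_fderiv one_ne_zero).clm_apply continuous_const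
  have hcd : ∀ v : Pt k, HasCompactSupport fun p => fderiv ℝ ψ p v := fun v =>
    hc.fderiv_apply (𝕜 := ℝ) v
  obtain ⟨g1, g2⟩ := int_grad h R
  have i1 : Integrable (fun q : (ℝ × ℝ) × (Fin k → ℝ) =>
      dx U q.1 * fderiv ℝ ψ (mm q) ((1, 0), 0) + dy U q.1 * fderiv ℝ ψ (mm q) ((0, 0), 1))
      ((volume.restrict G.Ω).prod volume) := (int_mm g1 (cd ((1, 0), 0)) (hcd _) (z1 _)).add
    (int_mm g2 (cd ((0, 0), 1)) (hcd _) (z1 _))
  have i3 := int_mm (int_f l0 h R) c.continuous hc z0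
  obtain ⟨C, hC⟩ := c.continuous.bounded_above_of_compact_support hc
  have cφ : Continuous fun q : ℝ × (Fin k → ℝ) => (((q.1, q.2), G.φ q.1) : Pt k) :=
    (continuous_fst.prodMk continuous_snd).prodMk (G.cont.comp continuous_fst)
  have i2 : Integrable (fun q : ℝ × (Fin k → ℝ) => ((1 - U (G.γ q.1)) * den G.φ q.1) *
      ψ ((q.1, q.2), G.φ q.1)) (volume.prod volume) := by
    refine gen (int_bd h R) (b := fun q => ψ ((q.1, q.2), G.φ q.1))
      (c.continuous.comp cφ).aestronglyMeasurable (fun q => hC _) fun q hq => ?_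
    have := z0 _ hq
    rw [Prod.norm_def, Prod.norm_def] at this
    simp only [max_le_iff] at this
    exact this.1
  -- the three integrals as iterated integrals
  have J1 : ∫ p in epigraph (fun x : Base k => G.φ x.1),
      gradDot (fun p : Pt k => 1 - U (p.1.1, p.2)) ψ p =
      -∫ z, ∫ p in G.Ω, (dx U p * fderiv ℝ ψ (sl z p) ((1, 0), 0) +
        dy U p * fderiv ℝ ψ (sl z p) ((0, 0), 1)) := by
    rw [int_epi]
    have e : ∀ᵐ q ∂((volume.restrict G.Ω).prod (volume : Measure (Fin k → ℝ))), q.1 ∈ G.Ω :=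
      Measure.quasiMeasurePreserving_fst.ae (ae_restrict_mem G.isOpen.measurableSet)
    rw [integral_congr_ae (g := fun q => -(dx U q.1 * fderiv ℝ ψ (mm q) ((1, 0), 0) +
      dy U q.1 * fderiv ℝ ψ (mm q) ((0, 0), 1))) (by
        filter_upwards [e] with q hq
        exact gradDot_lift h1 (p := mm q) hq ψ), integral_neg, integral_prod_symm _ i1]
    simp only [mm_eq]
  have J3 : ∫ p in epigraph (fun x : Base k => G.φ x.1), ff l (1 - U (p.1.1, p.2)) * ψ p =
      ∫ z, ∫ p in G.Ω, ff l (1 - U p) * ψ (sl z p) := by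
    rw [int_epi]
    refine Eq.trans ?_ ((integral_prod_symm _ i3).trans ?_)
    · rfl
    · simp only [mm_eq]
  have J2 : ∫ x : Base k, (1 - U (x.1, G.φ x.1)) * ψ (x, G.φ x.1) *
      density (fun x : Base k => G.φ x.1) x =
      ∫ z, ∫ x, ((1 - U (G.γ x)) * den G.φ x) * ψ ((x, z), G.φ x) := by
    refine Eq.trans ?_ ((integral_prod_symm _ i2).trans rfl)
    refine integral_congr_ae ?_
    filter_upwards [density_ae (k := k) G] with x hx
    rw [hx]
    show (1 - U (x.1, G.φ x.1)) * ψ (x, G.φ x.1) * den G.φ x.1 =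
      ((1 - U (x.1, G.φ x.1)) * den G.φ x.1) * ψ (x, G.φ x.1)
    ring
  -- the planar identity on the slices
  have slice : ∀ z : Fin k → ℝ, β * (∫ x, ((1 - U (G.γ x)) * den G.φ x) * ψ ((x, z), G.φ x)) =
      (∫ p in G.Ω, (dx U p * fderiv ℝ ψ (sl z p) ((1, 0), 0) +
        dy U p * fderiv ℝ ψ (sl z p) ((0, 0), 1))) +
      ∫ p in G.Ω, ff l (1 - U p) * ψ (sl z p) := by
    intro z
    have c1 : ContDiff ℝ 1 fun q => ψ (sl z q) :=
      c.comp (em.contDiff.add contDiff_const)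
    have c2 : HasCompactSupport fun q => ψ (sl z q) := by
      refine HasCompactSupport.intro (isCompact_closedBall (0 : ℝ × ℝ) R) fun q hq => ?_
      by_contra hne
      have := z0 _ hne
      rw [sl_apply, Prod.norm_def, Prod.norm_def] at this
      simp only [max_le_iff] at this
      refine hq (mem_closedBall_zero_iff.2 ?_)
      rw [Prod.norm_def]
      exact max_le this.1.1 this.2
    have e := h5 _ c1 c2
    have hder : ∀ q v, fderiv ℝ (fun q => ψ (sl z q)) q v = fderiv ℝ ψ (sl z q) (em v) := by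
      intro q v
      have hd : DifferentiableAt ℝ ψ (sl z q) := (c.differentiable one_ne_zero).differentiableAt
      have := hd.hasFDerivAt.comp q (sl_hasFDerivAt z q)
      rw [show (fun q => ψ (sl z q)) = ψ ∘ sl z from rfl, this.fderiv]
      rfl
    have e1 : (em (k := k) ((1 : ℝ), (0 : ℝ)) : Pt k) = ((1, 0), 0) := rfl
    have e2 : (em (k := k) ((0 : ℝ), (1 : ℝ)) : Pt k) = ((0, 0), 1) := rfl
    rw [hσ, integral_smul_measure, ENNReal.toReal_ofReal β0.le, sm,
      integral_withDensity_eq_integral_toReal_smul ((den_meas _).ennreal_ofReal)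
        (Eventually.of_forall fun x => ENNReal.ofReal_lt_top)] at e
    simp only [dx, dy, hder, e1, e2, smul_eq_mul] at e ⊢
    have e3 : ∀ p, ff l (1 - U p) = FF l 1 (U p) := fun p => by rw [ff, sub_sub_cancel]
    simp only [e3]
    rw [e]
    congr 1
    refine integral_congr_ae (Eventually.of_forall fun x => ?_)
    show _ = (ENNReal.ofReal (den G.φ x)).toReal * ((1 - U (G.γ x)) * ψ (sl z (G.γ x)))
    rw [ENNReal.toReal_ofReal (zero_le_one.trans (den_one _ _)), sl_apply]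
    show ((1 - U (G.γ x)) * den G.φ x) * ψ ((x, z), G.φ x) =
      den G.φ x * ((1 - U (G.γ x)) * ψ ((x, z), G.φ x))
    ring
  have K1 := i1.integral_prod_right
  have K3 := i3.integral_prod_right
  rw [J1, J2, J3, one_div, inv_inv, ← integral_const_mul]
  simp only [slice]
  rw [integral_add]
  · ring
  · refine K1.congr (Eventually.of_forall fun z => ?_)
    simp only [mm_eq]
  · refine K3.congr (Eventually.of_forall fun z => ?_)
    simp only [mm_eq]

theorem sol_lift {G : Geo} {β l : ℝ} (β0 : 0 < β) (l0 : 0 < l)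
    (hσ : G.σ = ENNReal.ofReal β • sm G.φ) {U : ℝ × ℝ → ℝ} (h : G.Sol l U) (k : ℕ) :
    IsSolution (k := k) (ff l) β⁻¹ (fun x => G.φ x.1) (fun p => 1 - U (p.1.1, p.2)) := by
  obtain ⟨h1, h2, h3, h4, h5⟩ := id h
  have hmap : MapsTo (pr (k := k)) (epigraph fun x : Base k => G.φ x.1) G.Ω := fun p hp => hp
  refine ⟨?_, ?_, ?_, ?_, fun ψ c hc => weak_lift β0 l0 hσ h ψ c hc⟩
  · exact contDiffOn_const.sub (h1.comp pr.contDiff.contDiffOn hmap)
  · refine continuousOn_const.sub (h2.comp (pr (k := k)).continuous.continuousOn fun p hp => ?_)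
    have h7 : pr p ∈ closure G.Ω := map_mem_closure (pr (k := k)).continuous hp hmap
    exact h7
  · intro p hp
    have := h3 (pr p) hp
    exact ⟨sub_pos.2 this.2, sub_le_self _ this.1⟩
  · intro R
    obtain ⟨a1, a2⟩ := h4 (G.Ω ∩ closedBall 0 R) inter_subset_left
      (isBounded_closedBall.subset inter_subset_right)
    have hm : MeasurableSet (G.Ω ∩ closedBall (0 : ℝ × ℝ) R) :=
      G.isOpen.measurableSet.inter isClosed_closedBall.measurableSet
    have h6 : IntegrableOn (fun q : (ℝ × ℝ) × (Fin k → ℝ) => (dx U q.1 ^ 2 + dy U q.1 ^ 2) * 1)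
        ((G.Ω ∩ closedBall 0 R) ×ˢ closedBall 0 R) := by
      rw [IntegrableOn, Measure.volume_eq_prod, ← Measure.prod_restrict]
      exact (a1.add a2).mul_prod
        (integrableOn_const (C := (1 : ℝ)) (isCompact_closedBall _ _).measure_lt_top.ne)
    rw [← mm_mp.integrableOn_comp_preimage mm.measurableEmbedding]
    have hsub : (mm (k := k)) ⁻¹' ((epigraph fun x : Base k => G.φ x.1) ∩ ball 0 R) ⊆
        (G.Ω ∩ closedBall 0 R) ×ˢ closedBall 0 R := by
      rintro q ⟨hq1, hq2⟩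
      have := norm_mm (mem_ball_zero_iff.1 hq2).le
      exact ⟨⟨hq1, mem_closedBall_zero_iff.2 this.1⟩, mem_closedBall_zero_iff.2 this.2⟩
    refine (h6.mono_set hsub).congr_fun_ae ?_
    have hms : MeasurableSet ((mm (k := k)) ⁻¹' ((epigraph fun x : Base k => G.φ x.1) ∩
        ball 0 R)) := by
      refine mm.measurable ((?_ : MeasurableSet _).inter isOpen_ball.measurableSet)
      exact (isOpen_lt (G.cont.comp (continuous_fst.comp continuous_fst))
        continuous_snd).measurableSet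
    filter_upwards [ae_restrict_mem hms] with q hq
    have hq1 : pr (mm q) ∈ G.Ω := hq.1
    have e := gradDot_lift h1 hq1 (fun p : Pt k => 1 - U (p.1.1, p.2))
    simp only [Function.comp]
    rw [e, grad_lift h1 hq1, grad_lift h1 hq1]
    have e1 : dx U q.1 = fderiv ℝ U (pr (mm q)) (pr (k := k) ((1, 0), 0)) := rfl
    have e2 : dy U q.1 = fderiv ℝ U (pr (mm q)) (pr (k := k) ((0, 0), 1)) := rfl
    rw [← e1, ← e2]
    have e3 : dx U (pr (mm q)) = dx U q.1 := rfl
    have e4 : dy U (pr (mm q)) = dy U q.1 := rfl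
    rw [e3, e4]
    ring

end Aux

section Scaling

variable {k : ℕ}

theorem haarB : (volume : Measure (Base k)).IsAddHaarMeasure := by
  rw [Measure.volume_eq_prod]
  infer_instance

theorem haarP : (volume : Measure (Pt k)).IsAddHaarMeasure := by
  have := haarB (k := k)
  rw [Measure.volume_eq_prod]
  infer_instance

theorem mem_scaled {φ : Base k → ℝ} {c : ℝ} (hc : 0 < c) (p : Pt k) :
    p ∈ epigraph (fun x => c⁻¹ * φ (c • x)) ↔ c • p ∈ epigraph φ := by
  show c⁻¹ * φ (c • p.1) < p.2 ↔ φ (c • p.1) < c * p.2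
  rw [inv_mul_lt_iff₀ hc]

theorem pre_scaled {φ : Base k → ℝ} {c : ℝ} (hc : 0 < c) :
    epigraph (fun x => c⁻¹ * φ (c • x)) = (fun p : Pt k => c • p) ⁻¹' epigraph φ := by
  ext p
  exact mem_scaled hc p

theorem gradDot_scaled {u ψ : Pt k → ℝ} (c : ℝ) (p : Pt k) :
    gradDot (fun p => u (c • p)) (fun p => ψ (c • p)) p = c ^ 2 * gradDot u ψ (c • p) := by
  have h : ∀ (g : Pt k → ℝ) (v : Pt k),
      fderiv ℝ (fun p => g (c • p)) p v = c * fderiv ℝ g (c • p) v := by
    intro g v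
    rw [fderiv_comp_smul]
    rfl
  unfold gradDot
  simp only [h]
  rw [mul_add, mul_add, Finset.mul_sum]
  congr 1
  · congr 1
    · ring
    · refine Finset.sum_congr rfl fun i _ => ?_
      ring
  · ring

theorem density_scaled {φ : Base k → ℝ} {c : ℝ} (hc : c ≠ 0) (x : Base k) :
    density (fun x => c⁻¹ * φ (c • x)) x = density φ (c • x) := by
  have h : ∀ v : Base k,
      fderiv ℝ (fun x => c⁻¹ * φ (c • x)) x v = fderiv ℝ φ (c • x) v := by
    intro v
    have e : (fun x => c⁻¹ * φ (c • x)) = c⁻¹ • (fun x => φ (c • x)) := rfl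
    rw [e, fderiv_const_smul_field, Pi.smul_apply, fderiv_comp_smul]
    show c⁻¹ * (c * fderiv ℝ φ (c • x) v) = _
    rw [inv_mul_cancel_left₀ hc]
  unfold density
  simp only [h]

open Pointwise in
theorem int_scaled {φ : Base k → ℝ} {c : ℝ} (hc : 0 < c) (F : Pt k → ℝ) :
    ∫ p in epigraph (fun x => c⁻¹ * φ (c • x)), F (c • p) =
      (c ^ (k + 2))⁻¹ * ∫ p in epigraph φ, F p := by
  have hne : c ≠ 0 := hc.ne'
  have := haarP (k := k)
  rw [Measure.setIntegral_comp_smul_of_pos volume F _ hc]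
  have e1 : c • epigraph (fun x => c⁻¹ * φ (c • x)) = epigraph φ := by
    rw [pre_scaled hc]
    ext p
    rw [Set.mem_smul_set_iff_inv_smul_mem₀ hne]
    show c • c⁻¹ • p ∈ epigraph φ ↔ _
    rw [smul_inv_smul₀ hne]
  have e2 : Module.finrank ℝ (Pt k) = k + 2 := by
    simp [Pt, Base]
    ring
  rw [e1, e2]
  rfl

theorem intb_scaled {c : ℝ} (hc : 0 < c) (F : Base k → ℝ) :
    ∫ x, F (c • x) = (c ^ (k + 1))⁻¹ * ∫ x, F x := by
  have := haarB (k := k)
  rw [Measure.integral_comp_smul_of_nonneg volume F c (hR := hc.le)]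
  have e2 : Module.finrank ℝ (Base k) = k + 1 := by
    simp [Base]
    ring
  rw [e2]
  rfl

theorem IsSolution.scale {f : ℝ → ℝ} {α : ℝ} {φ : Base k → ℝ} {u : Pt k → ℝ}
    (h : IsSolution f α φ u) (hα : 0 < α) {c : ℝ} (hc : 0 < c) :
    IsSolution (fun s => c ^ 2 * f s) (c⁻¹ * α) (fun x => c⁻¹ * φ (c • x))
      (fun p => u (c • p)) := by
  have hne : c ≠ 0 := hc.ne'
  have hsm : ContDiff ℝ 1 fun p : Pt k => c • p := contDiff_const_smul c
  have hpre := pre_scaled (φ := φ) hc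
  refine ⟨?_, ?_, ?_, ?_, ?_⟩
  · exact h.smooth.comp hsm.contDiffOn fun p hp => (mem_scaled hc p).1 hp
  · refine h.cont.comp hsm.continuous.continuousOn fun p hp => ?_
    rw [hpre] at hp
    exact map_mem_closure hsm.continuous hp fun q hq => hq
  · intro p hp
    exact h.bounds _ ((mem_scaled hc p).1 hp)
  · intro R
    have h1 := h.energy (c * R)
    have h2 : IntegrableOn (fun p => gradDot u u (c • p))
        (epigraph (fun x => c⁻¹ * φ (c • x)) ∩ Metric.ball 0 R) := by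
      have hb : epigraph (fun x => c⁻¹ * φ (c • x)) ∩ Metric.ball 0 R =
          (fun p : Pt k => c • p) ⁻¹' (epigraph φ ∩ Metric.ball 0 (c * R)) := by
        rw [preimage_inter, ← hpre]
        congr 1
        ext p
        simp only [mem_ball_zero_iff, mem_preimage, norm_smul, Real.norm_eq_abs, abs_of_pos hc]
        rw [mul_lt_mul_iff_right₀ hc]
      have hm : MeasurableEmbedding fun p : Pt k => c • p :=
        (Homeomorph.smulOfNeZero c hne).measurableEmbedding
      rw [hb]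
      refine (hm.integrableOn_map_iff (f := fun p => gradDot u u p)).1 ?_
      have := haarP (k := k)
      rw [Measure.map_addHaar_smul volume hne]
      rw [IntegrableOn, Measure.restrict_smul]
      exact Integrable.smul_measure h1 ENNReal.ofReal_ne_top
    refine (h2.const_mul (c ^ 2)).congr (Eventually.of_forall fun p => ?_)
    exact (gradDot_scaled c p).symm
  · intro ψ hψ hψc
    set χ : Pt k → ℝ := fun q => ψ (c⁻¹ • q) with hχ
    have hχ1 : ContDiff ℝ 1 χ := hψ.comp (contDiff_const_smul c⁻¹)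
    have hχ2 : HasCompactSupport χ :=
      hψc.comp_homeomorph (Homeomorph.smulOfNeZero c⁻¹ (inv_ne_zero hne))
    have e0 : ∀ p, ψ p = χ (c • p) := fun p => by
      rw [hχ]; simp only [inv_smul_smul₀ hne]
    have hw := h.weak χ hχ1 hχ2
    have i1 : ∫ p in epigraph (fun x => c⁻¹ * φ (c • x)), gradDot (fun p => u (c • p)) ψ p =
        c ^ 2 * ((c ^ (k + 2))⁻¹ * ∫ p in epigraph φ, gradDot u χ p) := by
      have e1 : ∀ p, gradDot (fun p => u (c • p)) ψ p = c ^ 2 * gradDot u χ (c • p) := by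
        intro p
        rw [← gradDot_scaled]
        congr 1
        funext q
        exact e0 q
      simp only [e1]
      rw [integral_const_mul, int_scaled hc (fun p => gradDot u χ p)]
    have i2 : ∫ x : Base k, u (c • ((x, c⁻¹ * φ (c • x)) : Pt k)) *
        ψ (x, c⁻¹ * φ (c • x)) * density (fun x => c⁻¹ * φ (c • x)) x =
        (c ^ (k + 1))⁻¹ * ∫ x : Base k, u (x, φ x) * χ (x, φ x) * density φ x := by
      rw [← intb_scaled hc (fun x : Base k => u (x, φ x) * χ (x, φ x) * density φ x)]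
      refine integral_congr_ae (Eventually.of_forall fun x => ?_)
      have e2 : c • ((x, c⁻¹ * φ (c • x)) : Pt k) = (c • x, φ (c • x)) := by
        refine Prod.ext rfl ?_
        show c * (c⁻¹ * φ (c • x)) = φ (c • x)
        rw [mul_inv_cancel_left₀ hne]
      show u (c • ((x, c⁻¹ * φ (c • x)) : Pt k)) * ψ (x, c⁻¹ * φ (c • x)) * _ = _
      rw [e0, e2, density_scaled hne]
    have i3 : ∫ p in epigraph (fun x => c⁻¹ * φ (c • x)), c ^ 2 * f (u (c • p)) * ψ p =
        c ^ 2 * ((c ^ (k + 2))⁻¹ * ∫ p in epigraph φ, f (u p) * χ p) := by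
      rw [← int_scaled hc (fun p => f (u p) * χ p), ← integral_const_mul]
      refine integral_congr_ae (Eventually.of_forall fun p => ?_)
      show c ^ 2 * f (u (c • p)) * ψ p = c ^ 2 * (f (u (c • p)) * χ (c • p))
      rw [e0]
      ring
    have i2' : ∫ x : Base k, (fun p : Pt k => u (c • p)) (x, (fun x => c⁻¹ * φ (c • x)) x) *
        ψ (x, (fun x => c⁻¹ * φ (c • x)) x) * density (fun x => c⁻¹ * φ (c • x)) x =
        (c ^ (k + 1))⁻¹ * ∫ x : Base k, u (x, φ x) * χ (x, φ x) * density φ x := i2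
    have i3' : ∫ p in epigraph (fun x => c⁻¹ * φ (c • x)),
        (fun s => c ^ 2 * f s) ((fun p : Pt k => u (c • p)) p) * ψ p =
        c ^ 2 * ((c ^ (k + 2))⁻¹ * ∫ p in epigraph φ, f (u p) * χ p) := i3
    rw [i1, i2', i3', ← hw]
    have hα' : α ≠ 0 := hα.ne'
    field_simp
    ring

theorem PositiveReaction.scale {f : ℝ → ℝ} (h : PositiveReaction f) {c : ℝ} (hc : 0 < c) :
    PositiveReaction fun s => c ^ 2 * f s := by
  obtain ⟨h1, ⟨C, γ, g0, g1, hH⟩, h3, h4, h5, h6, h7⟩ := h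
  have hc2 : 0 < c ^ 2 := by positivity
  have hd : deriv (fun s => c ^ 2 * f s) = fun s => c ^ 2 * deriv f s := by
    funext s
    exact deriv_const_mul_field _
  refine ⟨contDiff_const.mul h1, ⟨‖c ^ 2‖₊ * C, γ, g0, g1, ?_⟩, ?_, ?_, ?_, ?_, ?_⟩
  · rw [hd]
    intro x hx y hy
    have := hH x hx y hy
    show edist (c ^ 2 • deriv f x) (c ^ 2 • deriv f y) ≤ _
    rw [edist_smul₀, ENNReal.smul_def, smul_eq_mul, ENNReal.coe_mul, mul_assoc]
    gcongr
  · show c ^ 2 * f 0 = 0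
    rw [h3, mul_zero]
  · show c ^ 2 * f 1 = 0
    rw [h4, mul_zero]
  · intro s hs
    exact mul_pos hc2 (h5 s hs)
  · rw [hd]
    exact mul_pos hc2 h6
  · rw [hd]
    exact mul_neg_of_pos_of_neg hc2 h7

end Scaling

open Pool.Agent.H.MP_1dc5fb_an Pool.Agent.H75Robin in
/-- For EVERY `α > 0` there is a positive reaction `f` such that in every dimension
`d = k + 2 ≥ 2` the Robin problem has two distinct positive bounded solutions on some uniformly
Lipschitz epigraph. The functions `f` for the different `α` are positive multiples of one `f₀`, and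
the Lipschitz constant of the epigraphs depends neither on `α` nor on the dimension. -/
theorem result :
    ∃ (f₀ : ℝ → ℝ) (K : NNReal), ∀ α : ℝ, 0 < α → ∃ a : ℝ, 0 < a ∧
      PositiveReaction (fun s => a * f₀ s) ∧ ∀ k : ℕ,
        ∃ φ : Base k → ℝ, LipschitzWith K φ ∧
          ∃ u v : Pt k → ℝ, IsSolution (fun s => a * f₀ s) α φ u ∧
            IsSolution (fun s => a * f₀ s) α φ v ∧ ¬ Set.EqOn u v (epigraph φ) := by
  obtain ⟨G, β, l, β0, l0, hσ, U1, U2, h1, h2, h3⟩ := geo2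
  refine ⟨ff l, ⟨G.L, G.hL⟩, fun α hα => ?_⟩
  obtain ⟨c, hc, hcα⟩ : ∃ c : ℝ, 0 < c ∧ c⁻¹ * β⁻¹ = α :=
    ⟨(β * α)⁻¹, by positivity, by field_simp⟩
  have hβ : 0 < β⁻¹ := inv_pos.2 β0
  refine ⟨c ^ 2, by positivity, PositiveReaction.scale (ff_p l0) hc, fun k => ?_⟩
  have s1 := (sol_lift β0 l0 hσ h1 k).scale hβ hc
  have s2 := (sol_lift β0 l0 hσ h2 k).scale hβ hc
  rw [hcα] at s1 s2
  refine ⟨_, ?_, _, _, s1, s2, fun he => h3 fun p hp => ?_⟩
  · refine LipschitzWith.of_dist_le_mul fun x y => ?_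
    have e := G.lip (c * x.1) (c * y.1)
    show |c⁻¹ * G.φ (c • x).1 - c⁻¹ * G.φ (c • y).1| ≤ G.L * dist x y
    rw [← mul_sub, abs_mul, abs_of_pos (inv_pos.2 hc)]
    have e2 : |c * x.1 - c * y.1| = c * |x.1 - y.1| := by
      rw [← mul_sub, abs_mul, abs_of_pos hc]
    have e3 : |x.1 - y.1| ≤ dist x y := by
      rw [← Real.dist_eq]
      exact le_max_left _ _
    calc c⁻¹ * |G.φ (c • x).1 - G.φ (c • y).1| ≤ c⁻¹ * (G.L * (c * |x.1 - y.1|)) := by
          rw [← e2]
          exact mul_le_mul_of_nonneg_left e (inv_pos.2 hc).le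
      _ = G.L * |x.1 - y.1| := by field_simp
      _ ≤ G.L * dist x y := mul_le_mul_of_nonneg_left e3 G.hL
  · have hq : ((c⁻¹ • ((p.1, 0), p.2) : Pt k)) ∈
        epigraph (fun x : Base k => c⁻¹ * (fun x : Base k => G.φ x.1) (c • x)) := by
      refine (mem_scaled (φ := fun x : Base k => G.φ x.1) hc _).2 ?_
      rw [smul_inv_smul₀ hc.ne']
      exact hp
    have := he hq
    simp only [smul_inv_smul₀ hc.ne'] at this
    simpa using this

end Pool.Agent.Results.MP_1dc5fb_an.EveryAlpha
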